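import Pool.Agent.Lib.MP_d7b9cc_gt.V.Pre

/-! The last shear is changed so that several layers are stacked along the long axis. -/

open Finset Function
open scoped ContDiff

namespace Pool.Agent.Lib.BallV

open Pool.Agent.Lib.BallU

/-- The last shear with the additional shift `q`. -/
noncomputable def lift {N : ℕ} (q : (Fin (N + 2) → ℝ) → ℝ) (A : Fin (N + 2) → ℝ) :
    Fin (N + 2) → ℝ :=
  update A (Fin.last N).succ (A (Fin.last N).succ + q (update A (Fin.last N).succ 0))

theorem lift_zero {N : ℕ} (q : (Fin (N + 2) → ℝ) → ℝ) (A : Fin (N + 2) → ℝ) :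
    lift q A 0 = A 0 := update_of_ne (Fin.succ_ne_zero _).symm _ _

theorem lift_ne {N : ℕ} (q : (Fin (N + 2) → ℝ) → ℝ) (A : Fin (N + 2) → ℝ) {i : Fin (N + 1)}
    (h : i ≠ Fin.last N) : lift q A i.succ = A i.succ :=
  update_of_ne ((Fin.succ_injective _).ne h) _ _

theorem lift_last {N : ℕ} (q : (Fin (N + 2) → ℝ) → ℝ) (A : Fin (N + 2) → ℝ) :
    lift q A (Fin.last N).succ = A (Fin.last N).succ + q (update A (Fin.last N).succ 0) :=
  update_self _ _ _

theorem Pre.data {N : ℕ} {ρ a : ℝ} {B : ℕ} {s : ℕ → (Fin (N + 2) → ℝ) → ℝ}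
    {S : ℕ → Set (Fin (N + 2) → ℝ)} (h : Pre (N + 1) ρ s S) {q : (Fin (N + 2) → ℝ) → ℝ}
    (h1 : ContDiff ℝ ∞ q)
    (h2 : ∀ (A : Fin (N + 2) → ℝ) (j : ℤ), A 0 = j → fderiv ℝ q A (Pi.single 0 1) = 0)
    (h3 : ∀ A ∈ S (N + 2), (∀ i : Fin (N + 1), 0 < lift q A i.succ) ∧
      ∑ i : Fin (N + 1), lift q A i.succ < a)
    (h4 : ∀ A ∈ S (N + 2), ∀ A' ∈ S (N + 2),
      (∀ i : Fin (N + 1), lift q A i.succ = lift q A' i.succ) →
      ∀ j : ℤ, A' 0 - A 0 = j * (B : ℝ) → j = 0) :
    Data (N + 1) a B ρ 1 (fun k => if k = N + 1 then fun A => s k A + q A else s k)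
      fun k => if k = N + 2 then lift q '' S k else S k := by
  refine ⟨one_pos, fun k => ?_, fun k hk A j hA => ?_, fun A a1 a2 => ?_,
    fun k A hA t t1 t2 => ?_, fun A hA => ?_, fun A hA A' hA' hE j hj => ?_⟩
  · split_ifs
    · exact (h.smooth k).add h1
    · exact h.smooth k
  · have e : A 0 = ((j * B : ℤ) : ℝ) := by
      rw [hA]
      push_cast
      ring
    split_ifs
    · have d1 := ((h.smooth k).differentiable (by simp) A).hasFDerivAt
      have d2 := (h1.differentiable (by simp) A).hasFDerivAt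
      have d3 : HasFDerivAt (fun A => s k A + q A) _ A := d1.add d2
      rw [d3.fderiv, ContinuousLinearMap.add_apply, h.flat k hk A _ e, h2 A _ e, add_zero]
    · exact h.flat k hk A _ e
  · show A ∈ (if 0 = N + 2 then lift q '' S 0 else S 0)
    rw [if_neg (by omega)]
    exact h.init A a1 a2
  · have hk := k.2
    have hA' : A ∈ S k := by
      have : A ∈ (if (k : ℕ) = N + 2 then lift q '' S k else S k) := hA
      rwa [if_neg (by omega)] at this
    have := h.step k A hA' t t1 t2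
    show update A k (t + (if (k : ℕ) = N + 1 then fun A => s k A + q A else s k) (update A k 0)) ∈
      (if (k : ℕ) + 1 = N + 2 then lift q '' S (k + 1) else S (k + 1))
    by_cases e : (k : ℕ) = N + 1
    · rw [if_pos e, if_pos (by omega)]
      refine ⟨_, this, ?_⟩
      have e' : k = (Fin.last N).succ := Fin.ext (by simp [e])
      rw [lift, ← e', update_idem, update_idem, update_self, add_assoc]
    · rw [if_neg e, if_neg (by omega)]
      exact this
  · have : A ∈ (if N + 1 + 1 = N + 2 then lift q '' S (N + 1 + 1) else S (N + 1 + 1)) := hA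
    rw [if_pos rfl] at this
    obtain ⟨A₀, hA₀, rfl⟩ := this
    exact h3 A₀ hA₀
  · have a1 : A ∈ (if N + 1 + 1 = N + 2 then lift q '' S (N + 1 + 1) else S (N + 1 + 1)) := hA
    have a2 : A' ∈ (if N + 1 + 1 = N + 2 then lift q '' S (N + 1 + 1) else S (N + 1 + 1)) := hA'
    rw [if_pos rfl] at a1 a2
    obtain ⟨A₀, hA₀, rfl⟩ := a1
    obtain ⟨A₁, hA₁, rfl⟩ := a2
    rw [lift_zero, lift_zero] at hj
    exact h4 A₀ hA₀ A₁ hA₁ hE j hj

/-- The data for several balls in unit cells. -/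
theorem vdata_unit (N T B p k K : ℕ) (W : ℕ → ℕ) (ρ : ℕ → ℝ) {B' η : ℝ} (h0 : 0 < η)
    (h1 : η ≤ 1) (hT0 : 0 < T) (hB0 : 0 < B)
    (hK : 2 * (p * (((N + 1 : ℕ) + 1) / η + 1 + (N + 1 : ℕ))) + 1 ≤ (K : ℝ))
    (hT : ∀ i < k, ρ i + ((nxt (N + 1) η)^[N + 1] K : ℕ) + (N + 1 : ℕ) + 1 ≤ T)
    (hW : ∀ i < k, ρ i + 1 + 2 * ((nxt (N + 1) η)^[N + 1] K : ℕ) + 2 * (N + 1 : ℕ) ≤ W i)
    (hv : ∑ j ∈ range k, ((W j : ℝ) + (N + 1 : ℕ)) ^ (N + 1 + 1) <
      ((N + 1 : ℕ) + 1) * B' * (T : ℝ) ^ (N + 1))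
    (hB : B' + (k + 1) * η * T ≤ (p + 1) * B) :
    ∃ (s : Fin k → ℕ → (Fin (N + 2) → ℝ) → ℝ) (S : Fin k → ℕ → Set (Fin (N + 2) → ℝ)),
      (∀ i : Fin k, Data (N + 1) ((p + 1) * (T + N + 1)) B (ρ i) 1 (s i) (S i)) ∧
      (∀ i, ∀ A ∈ S i (N + 2),
        ∑ l : Fin N, A l.castSucc.succ + A (Fin.last N).succ / (p + 1) < T + N + 1) ∧
      ∀ i j, ∀ A ∈ S i (N + 2), ∀ A' ∈ S j (N + 2), (∀ l : Fin (N + 1), A l.succ = A' l.succ) →
        ∀ m : ℤ, A' 0 - A 0 = m * (B : ℝ) → i = j := by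
  obtain ⟨L, hL, hO, hP⟩ := exists_chain (N + 1) T k W hT0 h0.le h1 hv
  have up1 : ∀ i c, tot c < T → L i c ≤ L (i + 1) c := fun i c hc =>
    ((inv_OO ((hL i).zero h0.le) (W i) (N + 1) le_rfl).a c hc).trans (hO i c hc)
  have mono : ∀ c, tot c < T → Monotone fun i => L i c := fun c hc =>
    monotone_nat_of_le_succ fun i => up1 i c hc
  choose s S hD hS using fun i : Fin k => pre_of (N + 1) T (W i) K h0 (hL i) (hT i i.2) (hW i i.2)
  obtain ⟨q, q1, q2, q3⟩ := exists_shift h0 (hL 0) (Fin.last N) B p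
  have hZ0 : (0 : ℝ) ≤ 2 * (p * (((N + 1 : ℕ) + 1) / η + 1 + (N + 1 : ℕ))) := by positivity
  have hK1 : (1 : ℝ) ≤ K := by linarith
  have hK2 : 1 ≤ K := by exact_mod_cast hK1
  have hB1 : (0 : ℝ) < B := by exact_mod_cast hB0
  have hp1 : (0 : ℝ) < p + 1 := by positivity
  have q4 : ∀ A : Fin (N + 2) → ℝ,
      stk T (L 0) (Fin.last N) B p A (A 0) ≤ q (update A (Fin.last N).succ 0) ∧
      q (update A (Fin.last N).succ 0) ≤ stk T (L 0) (Fin.last N) B p A (A 0) +
        2 * (p * (((N + 1 : ℕ) + 1) / η + 1 + (N + 1 : ℕ))) := fun A => by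
    have := q3 (update A (Fin.last N).succ 0)
    rwa [stk_congr (A := update A (Fin.last N).succ 0) (A' := A)
      (fun i hi => update_of_ne ((Fin.succ_injective _).ne hi) _ _),
      update_of_ne (Fin.succ_ne_zero _).symm] at this
  have lay : ∀ (i : Fin k), ∀ A ∈ S i (N + 2),
      stk T (L 0) (Fin.last N) B (p + 1) A (A 0) ≤ lift q A (Fin.last N).succ ∧
      lift q A (Fin.last N).succ < stk T (L 0) (Fin.last N) B (p + 1) A (A 0 + B) := by
    intro i A hA
    have hQ := hS i A hA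
    have hc : tot (fl A) < T := by
      have := hQ.mar
      omega
    have a1 := hO i _ hc
    have a2 : L (i + 1) (fl A) ≤ L k (fl A) := mono _ hc i.2
    have a3 := hP _ hc
    have a4 : L 0 (fl A) ≤ L i (fl A) := mono _ hc (Nat.zero_le _)
    rw [lift_last]
    exact layer ((hL 0).zero h0.le) hK hZ0 (hQ.nn _) hQ.mar (by linarith [hQ.lo])
      (by linarith [hQ.hi]) (q4 A).1 (q4 A).2
  have pos : ∀ (i : Fin k), ∀ A ∈ S i (N + 2), ∀ l : Fin (N + 1), 0 < lift q A l.succ := by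
    intro i A hA l
    have hQ := hS i A hA
    by_cases hl : l = Fin.last N
    · rw [hl, lift_last]
      linarith [hQ.pos (Fin.last N) (Fin.last N).2, (q4 A).1,
        stk_nonneg (T := T) (L := L 0) (κ := Fin.last N) (B := B) (m := p) A (A 0)]
    · rw [lift_ne _ _ hl]
      exact hQ.pos l l.2
  have ell : ∀ (i : Fin k), ∀ A ∈ S i (N + 2), ∑ l : Fin N, lift q A l.castSucc.succ +
      lift q A (Fin.last N).succ / (p + 1) < T + N + 1 := by
    intro i A hA
    have hQ := hS i A hA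
    have a1 := (lay i A hA).2.trans_le (stk_le A _)
    have a2 : lift q A (Fin.last N).succ / (p + 1) < len T (fl A) (Fin.last N) := by
      rw [div_lt_iff₀' hp1]
      exact_mod_cast a1
    have a3 : ∑ l : Fin N, lift q A l.castSucc.succ ≤ ∑ l : Fin N, ((fl A l.castSucc : ℝ) + 1) :=
      sum_le_sum fun l _ => by
        rw [lift_ne _ _ (Fin.castSucc_ne_last l)]
        exact (Nat.lt_floor_add_one _).le
    have a4 : tot (update (fl A) (Fin.last N) 0) = ∑ l : Fin N, fl A l.castSucc := by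
      rw [tot, Fin.sum_univ_castSucc, update_self, add_zero]
      exact sum_congr rfl fun l _ => update_of_ne (Fin.castSucc_ne_last l) _ _
    have a5 : len T (fl A) (Fin.last N) + ∑ l : Fin N, fl A l.castSucc = T := by
      have := hQ.mar
      rw [tot_eq (fl A) (Fin.last N), a4] at this
      rw [len, a4]
      omega
    have a6 : (len T (fl A) (Fin.last N) : ℝ) + ∑ l : Fin N, (fl A l.castSucc : ℝ) = T := by
      exact_mod_cast a5
    rw [sum_add_distrib] at a3
    simp only [sum_const, card_univ, Fintype.card_fin, nsmul_eq_mul, mul_one] at a3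
    linarith
  have inj : ∀ (i j : Fin k), ∀ A ∈ S i (N + 2), ∀ A' ∈ S j (N + 2),
      (∀ l : Fin (N + 1), lift q A l.succ = lift q A' l.succ) →
      ∀ m : ℤ, A' 0 - A 0 = m * (B : ℝ) → m = 0 ∧ i = j := by
    intro i j A hA A' hA' hE m hm
    have e1 : ∀ l : Fin (N + 1), l ≠ Fin.last N → A l.succ = A' l.succ := fun l hl => by
      rw [← lift_ne q A hl, ← lift_ne q A' hl, hE]
    obtain ⟨a1, a2⟩ := lay i A hA
    obtain ⟨a3, a4⟩ := lay j A' hA'
    rw [← stk_congr e1, ← hE] at a3 a4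
    have m0 : m = 0 := by
      rcases lt_trichotomy m 0 with h | h | h
      · have c1 : (m : ℝ) + 1 ≤ 0 := by exact_mod_cast h
        have c2 := stk_mono (T := T) (L := L 0) (κ := Fin.last N) (B := B) (m := p + 1) A
          (X := A' 0 + B) (Y := A 0) (by nlinarith)
        linarith
      · exact h
      · have c1 : (1 : ℝ) ≤ m := by exact_mod_cast h
        have c2 := stk_mono (T := T) (L := L 0) (κ := Fin.last N) (B := B) (m := p + 1) A
          (X := A 0 + B) (Y := A' 0) (by nlinarith)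
        linarith
    refine ⟨m0, ?_⟩
    rw [m0, Int.cast_zero, zero_mul, sub_eq_zero] at hm
    have e2 : update A (Fin.last N).succ 0 = update A' (Fin.last N).succ 0 := by
      funext l
      refine Fin.cases ?_ (fun l => ?_) l
      · rw [update_of_ne (Fin.succ_ne_zero _).symm, update_of_ne (Fin.succ_ne_zero _).symm, hm]
      · by_cases hl : l = Fin.last N
        · rw [hl, update_self, update_self]
        · rw [update_of_ne ((Fin.succ_injective _).ne hl),
            update_of_ne ((Fin.succ_injective _).ne hl), e1 l hl]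
    have e3 : A (Fin.last N).succ = A' (Fin.last N).succ := by
      have := hE (Fin.last N)
      rw [lift_last, lift_last, e2] at this
      exact add_right_cancel this
    have e : fl A' = fl A := by
      funext l
      by_cases hl : l = Fin.last N
      · rw [fl, fl, hl, e3]
      · rw [fl, fl, e1 l hl]
    have hQ := hS i A hA
    have hQ' := hS j A' hA'
    have hc : tot (fl A) < T := by
      have := hQ.mar
      omega
    have b1 := hO i _ hc
    have b2 := hO j _ hc
    have b3 := hQ.lo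
    have b4 := hQ.hi
    have b5 := hQ'.lo
    have b6 := hQ'.hi
    rw [e] at b5 b6
    rcases lt_trichotomy (i : ℕ) j with h | h | h
    · have : L (i + 1) (fl A) ≤ L j (fl A) := mono _ hc h
      linarith
    · exact Fin.ext h
    · have : L (j + 1) (fl A) ≤ L i (fl A) := mono _ hc h
      linarith
  refine ⟨_, _, fun i => (hD i).data q1 q2 (fun A hA => ⟨pos i A hA, ?_⟩)
    (fun A hA A' hA' hE j hj => (inj i i A hA A' hA' hE j hj).1), fun i A hA => ?_,
    fun i j A hA A' hA' hE m hm => ?_⟩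
  · have a1 := ell i A hA
    have a2 : 0 ≤ ∑ l : Fin N, lift q A l.castSucc.succ := sum_nonneg fun l _ => (pos i A hA _).le
    have a3 := mul_lt_mul_of_pos_left a1 hp1
    rw [mul_add, mul_div_cancel₀ _ hp1.ne'] at a3
    rw [Fin.sum_univ_castSucc]
    have a4 : (0 : ℝ) ≤ p := Nat.cast_nonneg _
    nlinarith
  · rw [if_pos rfl] at hA
    obtain ⟨A₀, hA₀, rfl⟩ := hA
    exact ell i A₀ hA₀
  · rw [if_pos rfl] at hA hA'
    obtain ⟨A₀, hA₀, rfl⟩ := hA
    obtain ⟨A₁, hA₁, rfl⟩ := hA'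
    rw [lift_zero, lift_zero] at hm
    exact (inj i j A₀ hA₀ A₁ hA₁ hE m hm).2

end Pool.Agent.Lib.BallV
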