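import Pool.Agent.Retired.MP_d7b9cc_gt.EllipsoidPackings

/-! The case `m = 1` is the packing theorem for a ball times a punctured torus. -/

open scoped ContDiff

namespace Pool.Agent.Lib.BallV

open Pool.Agent.Results.MP_d7b9cc_gt.EllipsoidPackings

theorem allPackings (N k : ℕ) (hN : 0 < N) (a b : ℝ) (r : Fin k → ℝ) (ha0 : 0 < a) (hb : 0 < b)
    (ha : ∀ i, Real.pi * r i ^ 2 < a)
    (hv : ∑ i, (Real.pi * r i ^ 2) ^ (N + 1) < (N + 1) * a ^ N * b) :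
    ∃ (U : Fin k → Set (Fin (N + 1) → ℂ)) (ψ : Fin k → (Fin (N + 1) → ℂ) → Fin (N + 1) → ℂ),
      (∀ i, IsOpen (U i) ∧
        (∀ z : Fin (N + 1) → ℂ, ∑ j, ‖z j‖ ^ 2 ≤ r i ^ 2 → z ∈ U i) ∧
        ContDiffOn ℝ ∞ (ψ i) (U i) ∧
        (∀ z ∈ U i, ∀ v w,
          sympForm (fderiv ℝ (ψ i) z v) (fderiv ℝ (ψ i) z w) = sympForm v w) ∧
        (∀ z ∈ U i, Real.pi * ∑ j : Fin N, ‖ψ i z j.succ‖ ^ 2 < a) ∧
        ∀ z ∈ U i, ∀ m l : ℤ, ψ i z 0 ≠ (m : ℂ) * (b : ℂ) + (l : ℂ) * Complex.I) ∧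
      ∀ i i', ∀ z ∈ U i, ∀ z' ∈ U i', (∀ j : Fin N, ψ i z j.succ = ψ i' z' j.succ) →
        (∃ m l : ℤ, ψ i' z' 0 - ψ i z 0 = (m : ℂ) * (b : ℂ) + (l : ℂ) * Complex.I) →
          i = i' ∧ z = z' := by
  obtain ⟨N, rfl⟩ : ∃ M, N = M + 1 := ⟨N - 1, by omega⟩
  obtain ⟨U, ψ, h1, h2⟩ := result N k 1 a b r one_pos ha0 hb ha (hv.trans_eq (by
    push_cast
    ring))
  refine ⟨U, ψ, fun i => ?_, h2⟩
  obtain ⟨c1, c2, c3, c4, c5, c6⟩ := h1 i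
  refine ⟨c1, c2, c3, c4, fun z hz => ?_, c6⟩
  have := c5 z hz
  rw [Nat.cast_one, div_one] at this
  rw [Fin.sum_univ_castSucc, Fin.succ_last]
  exact this

end Pool.Agent.Lib.BallV
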