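import Pool.Agent.Lib.MP_d7b9cc_gt.V.Dat

/-! Several balls in an ellipsoid with one long axis times a punctured torus. -/

open Finset Function
open scoped ContDiff

namespace Pool.Agent.Lib.BallV

open Pool.Agent.Lib.BallU Pool.Agent.Lib.BallT6

theorem exists_vdata (N k p : ℕ) {a b : ℝ} (ρ : ℕ → ℝ) (hb : 0 < b) (ha0 : 0 < a)
    (hρ : ∀ i, 0 ≤ ρ i) (ha : ∀ i < k, ρ i < a)
    (hv : ∑ i ∈ range k, ρ i ^ (N + 2) < (N + 2) * (p + 1) * a ^ (N + 1) * b) :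
    ∃ (a' ε : ℝ) (s : Fin k → ℕ → (Fin (N + 2) → ℝ) → ℝ)
      (S : Fin k → ℕ → Set (Fin (N + 2) → ℝ)),
      (∀ i : Fin k, Data (N + 1) a' b (ρ i) ε (s i) (S i)) ∧
      (∀ i, ∀ A ∈ S i (N + 2),
        ∑ l : Fin N, A l.castSucc.succ + A (Fin.last N).succ / (p + 1) < a) ∧
      ∀ i j, ∀ A ∈ S i (N + 2), ∀ A' ∈ S j (N + 2), (∀ l : Fin (N + 1), A l.succ = A' l.succ) →
        ∀ m : ℤ, A' 0 - A 0 = m * b → i = j := by
  have hM : 0 < ((N : ℝ) + 2) * a ^ (N + 1) := by positivity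
  have hv' : ∑ i ∈ range k, ρ i ^ (N + 2) < ((N : ℝ) + 2) * a ^ (N + 1) * ((p + 1) * b) :=
    hv.trans_eq (by ring)
  obtain ⟨b', hb1, hb2⟩ := exists_between ((div_lt_iff₀' hM).2 hv')
  have hb0 : 0 < b' := lt_of_le_of_lt
    (div_nonneg (sum_nonneg fun i _ => pow_nonneg (hρ i) _) hM.le) hb1
  rw [div_lt_iff₀' hM] at hb1
  have hk : (0 : ℝ) < (k + 1) * a := by positivity
  obtain ⟨η, hη⟩ : ∃ η : ℝ, η = min 1 (((p + 1) * b - b') / ((k + 1) * a)) := ⟨_, rfl⟩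
  have h0 : 0 < η := by
    rw [hη]
    exact lt_min one_pos (div_pos (sub_pos.2 hb2) hk)
  have h1 : η ≤ 1 := hη ▸ min_le_left _ _
  have h2 : η * ((k + 1) * a) ≤ (p + 1) * b - b' := (le_div_iff₀ hk).1 (hη ▸ min_le_right _ _)
  obtain ⟨K₀, hK₀⟩ := exists_nat_ge (2 * (p * (((N + 1 : ℕ) + 1) / η + 1 + (N + 1 : ℕ))) + 1 : ℝ)
  obtain ⟨K, hK⟩ : ∃ K : ℕ, K = (nxt (N + 1) η)^[N + 1] K₀ := ⟨_, rfl⟩
  have k0 : (0 : ℝ) ≤ K := Nat.cast_nonneg _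
  have n0 : (0 : ℝ) ≤ N := Nat.cast_nonneg _
  obtain ⟨C, hC⟩ : ∃ C : ℝ, C = 2 * K + 3 * N + 6 := ⟨_, rfl⟩
  obtain ⟨B, hB, m0, m1, m2⟩ := exists_mmesh (N + 1) k (b' := b') ((N + 3) * b) (C / (N + 3)) ρ
    ha0 ha (by
      push_cast
      exact hb1.trans_eq (by ring))
  have hB' : (0 : ℝ) < B := by exact_mod_cast hB
  obtain ⟨δ, hδ⟩ : ∃ δ : ℝ, δ = b / B := ⟨_, rfl⟩
  have e0 : ((N : ℝ) + 3) * b / B = (N + 3) * δ := by rw [hδ, mul_div_assoc]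
  have e0' : C / (N + 3) * ((N + 3) * δ) = C * δ := by field_simp
  rw [e0] at m0 m1 m2
  rw [e0'] at m1 m2
  have d0 : 0 < δ := hδ ▸ div_pos hb hB'
  have d1 : δ * B = b := by
    rw [hδ]
    field_simp
  obtain ⟨r, hr⟩ : ∃ r : ℕ → ℝ, ∀ i, δ * r i = ρ i := ⟨fun i => ρ i / δ, fun i => by field_simp⟩
  obtain ⟨x, hx⟩ : ∃ x : ℝ, δ * x = a := ⟨a / δ, by field_simp⟩
  obtain ⟨y, hy⟩ : ∃ y : ℝ, δ * y = b' := ⟨b' / δ, by field_simp⟩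
  have r0 : ∀ i, 0 ≤ r i := fun i => (mul_nonneg_iff_of_pos_left d0).1 (hr i ▸ hρ i)
  have y0 : 0 ≤ y := (mul_nonneg_iff_of_pos_left d0).1 (hy ▸ hb0.le)
  have e3 : a - (N + 3) * δ = δ * (x - (N + 3)) := by
    rw [← hx]
    ring
  have x1 : 0 < x - (N + 3) := (mul_pos_iff_of_pos_left d0).1 (e3 ▸ m0)
  obtain ⟨T, hT⟩ : ∃ T : ℕ, T = ⌊x - (N + 1)⌋₊ := ⟨_, rfl⟩
  have t1 : (T : ℝ) ≤ x - (N + 1) := hT ▸ Nat.floor_le (by linarith)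
  have t2 : x - (N + 1) < (T : ℝ) + 1 := hT ▸ Nat.lt_floor_add_one _
  have w1 : ∀ i, r i ≤ (⌈r i⌉₊ : ℝ) := fun i => Nat.le_ceil _
  have w2 : ∀ i, (⌈r i⌉₊ : ℝ) < r i + 1 := fun i => Nat.ceil_lt_add_one (r0 i)
  have m3 : ∀ i < k, r i + C ≤ x - (N + 3) := fun i hi => by
    refine le_of_mul_le_mul_left ?_ d0
    have := m1 i (mem_range.2 hi)
    rw [mul_add, hr, ← e3]
    linarith
  have m4 : ∑ i ∈ range k, (r i + C) ^ (N + 1 + 1) <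
      ((N + 1 : ℕ) + 1) * y * (x - (N + 3)) ^ (N + 1) := by
    refine lt_of_mul_lt_mul_left ?_ (pow_pos d0 (N + 1 + 1)).le
    have e1 : ∀ i, δ ^ (N + 1 + 1) * (r i + C) ^ (N + 1 + 1) = (ρ i + C * δ) ^ (N + 1 + 1) :=
      fun i => by rw [← mul_pow, ← hr, mul_add, mul_comm δ C]
    have e2 : δ ^ (N + 1 + 1) * (((N + 1 : ℕ) + 1) * y * (x - (N + 3)) ^ (N + 1)) =
        ((N + 1 : ℕ) + 1) * b' * (a - (N + 3) * δ) ^ (N + 1) := by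
      rw [e3, ← hy, mul_pow]
      ring
    rw [mul_sum, sum_congr rfl fun i _ => e1 i, e2]
    exact m2
  have hT0 : 0 < T := by
    have : (0 : ℝ) < T := by linarith
    exact_mod_cast this
  obtain ⟨s, S, hD, hE, hX⟩ := vdata_unit N T B p k K₀ (fun i => ⌈r i⌉₊ + 2 * K + 2 * N + 3) r
    (B' := y) h0 h1 hT0 hB hK₀
    (fun i hi => by rw [← hK]; push_cast; linarith [m3 i hi])
    (fun i _ => by rw [← hK]; push_cast; linarith [w1 i])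
    (by
      have e1 : ∑ i ∈ range k, (((⌈r i⌉₊ + 2 * K + 2 * N + 3 : ℕ) : ℝ) + (N + 1 : ℕ)) ^ (N + 1 + 1) ≤
          ∑ i ∈ range k, (r i + C) ^ (N + 1 + 1) := sum_le_sum fun i _ =>
        pow_le_pow_left₀ (by positivity) (by push_cast; linarith [w2 i]) _
      have e2 : (x - (N + 3)) ^ (N + 1) ≤ (T : ℝ) ^ (N + 1) :=
        pow_le_pow_left₀ (by linarith) (by linarith) _
      exact e1.trans_lt (m4.trans_le (mul_le_mul_of_nonneg_left e2 (by positivity))))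
    (by
      refine le_of_mul_le_mul_left ?_ d0
      have e1 : (k + 1) * η * (δ * (T : ℝ)) ≤ (k + 1) * η * (δ * x) :=
        mul_le_mul_of_nonneg_left (mul_le_mul_of_nonneg_left (by linarith) d0.le) (by positivity)
      rw [hx] at e1
      rw [mul_add, hy, mul_left_comm δ (p + 1) B, d1]
      linarith [mul_left_comm δ ((k + 1) * η) (T : ℝ)])
  refine ⟨δ * ((p + 1) * (T + N + 1)), δ * 1, fun i l A => δ * s i l (δ⁻¹ • A),
    fun i l => {A | δ⁻¹ • A ∈ S i l}, fun i => ?_, fun i A hA => ?_,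
    fun i j A hA A' hA' hE m hm => hX i j _ hA _ hA' (fun l => ?_) m ?_⟩
  · have := (hD i).scale' d0 le_rfl
    rwa [d1, hr] at this
  · have a1 := mul_lt_mul_of_pos_left (hE i _ hA) d0
    have a2 : δ * (∑ l : Fin N, (δ⁻¹ • A) l.castSucc.succ + (δ⁻¹ • A) (Fin.last N).succ / (p + 1)) =
        ∑ l : Fin N, A l.castSucc.succ + A (Fin.last N).succ / (p + 1) := by
      simp only [Pi.smul_apply, smul_eq_mul]
      rw [← mul_sum, mul_add, mul_inv_cancel_left₀ d0.ne', mul_div_assoc,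
        mul_inv_cancel_left₀ d0.ne']
    have a3 : δ * ((T : ℝ) + N + 1) ≤ δ * x := mul_le_mul_of_nonneg_left (by linarith) d0.le
    rw [a2] at a1
    linarith
  · rw [Pi.smul_apply, Pi.smul_apply, hE l]
  · rw [Pi.smul_apply, Pi.smul_apply, smul_eq_mul, smul_eq_mul, ← mul_sub, hm, ← d1]
    field_simp

theorem balls_ell (E : Type) [NormedAddCommGroup E] [NormedSpace ℝ E] (N k p : ℕ) {a b : ℝ}
    (ρ : ℕ → ℝ) (hb : 0 < b) (ha0 : 0 < a) (hρ : ∀ i, 0 ≤ ρ i) (ha : ∀ i < k, ρ i < a)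
    (hv : ∑ i ∈ range k, ρ i ^ (N + 2) < (N + 2) * (p + 1) * a ^ (N + 1) * b) :
    ∃ Ψ : Fin k → (ℕ → ℂ) → ℕ → ℂ,
      (∀ (i : Fin k) z, ∑ l ∈ range (N + 2), mu (z l) ≤ ρ i → Good E (N + 2) (Ψ i) z ∧
        ∑ l : Fin N, mu (Ψ i z (l + 1)) + mu (Ψ i z (N + 1)) / (p + 1) < a ∧
        ∀ m l : ℤ, Ψ i z 0 ≠ (m : ℂ) * (b : ℂ) + (l : ℂ) * Complex.I) ∧
      ∀ (i j : Fin k) z z', ∑ l ∈ range (N + 2), mu (z l) ≤ ρ i →
        ∑ l ∈ range (N + 2), mu (z' l) ≤ ρ j → (∀ l < N + 1, Ψ i z (l + 1) = Ψ j z' (l + 1)) →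
        ∀ m l : ℤ, Ψ j z' 0 - Ψ i z 0 = (m : ℂ) * (b : ℂ) + (l : ℂ) * Complex.I →
          i = j ∧ ∀ l < N + 2, z l = z' l := by
  obtain ⟨a', ε, s, S, h, hE, hX⟩ := exists_vdata N k p ρ hb ha0 hρ ha hv
  choose Ψ h1 h2 using fun i => geo' E (h i)
  refine ⟨Ψ, fun i z hz => ⟨(h1 i z hz).1, ?_, (h1 i z hz).2.2.1⟩,
    fun i j z z' hz hz' hE m l hm => ?_⟩
  · obtain ⟨A, hA, -, a1⟩ := (h1 i z hz).2.2.2
    have := hE i A hA
    simpa only [a1, Fin.val_castSucc, Fin.val_last] using this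
  · obtain ⟨A, hA, a0, a1⟩ := (h1 i z hz).2.2.2
    obtain ⟨A', hA', b0, b1⟩ := (h1 j z' hz').2.2.2
    obtain rfl : i = j := hX i j A hA A' hA' (fun l => by rw [a1, b1, hE l l.2]) m (by
      have := congrArg Complex.re hm
      rw [a0, b0]
      simpa using this)
    exact ⟨rfl, h2 i z z' hz hz' hE m l hm⟩

end Pool.Agent.Lib.BallV
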