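import Pool.Agent.Lib.MP_d7b9cc_gt.U.MMain

/-! The chain of shears with a free final margin, and the stacking function. -/

open Finset Function
open scoped ContDiff

namespace Pool.Agent.Lib.BallV

open Pool.Agent.Lib.BallU

/-- The data of the chain of shears in unit cells, without the final conditions. -/
structure Pre (N : ℕ) (ρ : ℝ) (s : ℕ → (Fin (N + 1) → ℝ) → ℝ)
    (S : ℕ → Set (Fin (N + 1) → ℝ)) : Prop where
  smooth : ∀ k, ContDiff ℝ ∞ (s k)
  flat : ∀ k, 1 ≤ k → ∀ (A : Fin (N + 1) → ℝ) (j : ℤ), A 0 = j →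
    fderiv ℝ (s k) A (Pi.single 0 1) = 0
  init : ∀ A : Fin (N + 1) → ℝ, (∀ i, 0 ≤ A i) → ∑ i, A i ≤ ρ → A ∈ S 0
  step : ∀ (k : Fin (N + 1)), ∀ A ∈ S k, ∀ t, 0 < t → t ≤ A k + 1 →
    update A k (t + s k (update A k 0)) ∈ S (k + 1)

theorem pre_of (N T W K : ℕ) {η ρ : ℝ} (h0 : 0 < η) {L : (Fin N → ℕ) → ℝ} (hL : Adm T η L)
    (hT : ρ + ((nxt N η)^[N] K : ℕ) + N + 1 ≤ T)
    (hW : ρ + 1 + 2 * ((nxt N η)^[N] K : ℕ) + 2 * N ≤ W) :
    ∃ s S, Pre N ρ s S ∧ ∀ A ∈ S (N + 1), Q T K L (OO T W L N) N A := by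
  have hL0 := hL.zero h0.le
  obtain ⟨s0, hs0, ht0⟩ := step0 (K := (nxt N η)^[N] K) (W := W) hL0 hT hW
  choose f hf1 hf2 hf3 using fun k : Fin N =>
    step h0 hL k (inv_OO hL0 W k k.2.le) ((nxt N η)^[N - (k + 1)] K)
  refine ⟨fun j => Nat.casesOn j s0 fun k => if h : k < N then f ⟨k, h⟩ else fun _ => 0,
    fun j => Nat.casesOn j {A | (∀ i, 0 ≤ A i) ∧ ∑ i, A i ≤ ρ}
      fun k => {A | Q T ((nxt N η)^[N - k] K) L (OO T W L k) k A},
    ⟨?_, ?_, ?_, ?_⟩, ?_⟩
  · rintro (_ | k)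
    · exact hs0
    · show ContDiff ℝ ∞ (if h : k < N then f ⟨k, h⟩ else fun _ => 0)
      split_ifs with h
      · exact hf1 _
      · exact contDiff_const
  · rintro (_ | k) hk A j hA
    · omega
    · show fderiv ℝ (if h : k < N then f ⟨k, h⟩ else fun _ => 0) A (Pi.single 0 1) = 0
      split_ifs with h
      · exact hf2 _ A j hA
      · simp
  · intro A hA1 hA2
    exact And.intro hA1 hA2
  · intro k
    refine Fin.cases ?_ (fun k => ?_) k
    · intro A hA t ht1 ht2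
      exact ht0 A t hA.1 hA.2 ht1 ht2
    · intro A hA t ht1 ht2
      have hA' : Q T ((nxt N η)^[N - k] K) L (OO T W L k) k A := hA
      have e : N - (k : ℕ) = (N - (k + 1)) + 1 := by
        have := k.2
        omega
      rw [e, Function.iterate_succ_apply'] at hA'
      have h3 := hf3 k A t hA' ht1 ht2
      show Q T ((nxt N η)^[N - (k + 1)] K) L (OO T W L (k + 1)) (k + 1)
        (update A k.succ (t + (if h : (k : ℕ) < N then f ⟨k, h⟩ else fun _ => 0)
          (update A k.succ 0)))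
      rw [OO, dif_pos k.2, dif_pos k.2]
      exact h3
  · intro A hA
    have hA' : Q T ((nxt N η)^[N - N] K) L (OO T W L N) N A := hA
    rwa [Nat.sub_self, Function.iterate_zero_apply] at hA'

theorem cnt_mono (H : ℕ) (g : ℕ → ℝ) {X Y : ℝ} (h : X ≤ Y) : cnt H g X ≤ cnt H g Y :=
  card_le_card fun _ hs => mem_filter.2 ⟨(mem_filter.1 hs).1, (mem_filter.1 hs).2.trans h⟩

theorem cnt_slope {H : ℕ} {g : ℕ → ℝ} {η Y D : ℝ} (hη : 0 < η) (hD : 0 ≤ D)
    (h : ∀ s, s + 1 < H → g s + η ≤ g (s + 1)) :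
    (cnt H g (Y + D) : ℝ) ≤ cnt H g Y + D / η + 1 := by
  have Lm : ∀ s, s + 1 < H → g s ≤ g (s + 1) := fun s hs => by linarith [h s hs]
  have hq : 0 ≤ D / η := by positivity
  have s3 : cnt H g (Y + D) ≤ H := cnt_le _ _ _
  rcases le_or_gt (cnt H g (Y + D)) (cnt H g Y) with h1 | h1
  · have : (cnt H g (Y + D) : ℝ) ≤ cnt H g Y := by exact_mod_cast h1
    linarith
  · obtain ⟨j, hj⟩ := Nat.exists_eq_add_of_lt h1
    have h2 : ¬ g (cnt H g Y) ≤ Y := fun h => lt_irrefl _ ((lt_cnt_iff Lm (by omega)).2 h)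
    have h3 : g (cnt H g Y + j) ≤ Y + D := (lt_cnt_iff Lm (by omega)).1 (by omega)
    have h4 := slope_le h (cnt H g Y) j (by omega)
    have h5 : (j : ℝ) ≤ D / η := by
      rw [le_div_iff₀ hη]
      push Not at h2
      linarith
    rw [hj]
    push_cast
    linarith

variable {N T : ℕ} {η : ℝ} {L : (Fin N → ℕ) → ℝ} {κ : Fin N}

/-- The number of cells entered before time `Y` on the line through `A` in direction `κ`. -/
noncomputable def ent (T : ℕ) (L : (Fin N → ℕ) → ℝ) (κ : Fin N) (A : Fin (N + 1) → ℝ) (Y : ℝ) :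
    ℝ := cnt (len T (fl A) κ) (line L (fl A) κ) Y

/-- The height of the stack of `m` layers below time `X`. -/
noncomputable def stk (T : ℕ) (L : (Fin N → ℕ) → ℝ) (κ : Fin N) (B : ℝ) (m : ℕ)
    (A : Fin (N + 1) → ℝ) (X : ℝ) : ℝ := ∑ j ∈ range m, ent T L κ A (X - (j + 1) * B)

theorem ent_congr {A A' : Fin (N + 1) → ℝ} (h : ∀ i : Fin N, i ≠ κ → A i.succ = A' i.succ) :
    ent T L κ A = ent T L κ A' := by
  have e : fl A' = update (fl A) κ (fl A' κ) := by
    funext i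
    by_cases hi : i = κ
    · subst hi
      rw [update_self]
    · rw [update_of_ne hi, fl, fl, h i hi]
  funext Y
  unfold ent
  rw [e, len_update, line_update]

theorem stk_congr {B : ℝ} {m : ℕ} {A A' : Fin (N + 1) → ℝ}
    (h : ∀ i : Fin N, i ≠ κ → A i.succ = A' i.succ) : stk T L κ B m A = stk T L κ B m A' := by
  funext X
  unfold stk
  rw [ent_congr h]

theorem stk_mono {B : ℝ} {m : ℕ} (A : Fin (N + 1) → ℝ) {X Y : ℝ} (h : X ≤ Y) :
    stk T L κ B m A X ≤ stk T L κ B m A Y :=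
  sum_le_sum fun _ _ => Nat.cast_le.2 (cnt_mono _ _ (by linarith))

theorem stk_nonneg {B : ℝ} {m : ℕ} (A : Fin (N + 1) → ℝ) (X : ℝ) : 0 ≤ stk T L κ B m A X :=
  sum_nonneg fun _ _ => Nat.cast_nonneg _

theorem stk_le {B : ℝ} {m : ℕ} (A : Fin (N + 1) → ℝ) (X : ℝ) :
    stk T L κ B m A X ≤ m * len T (fl A) κ := by
  have : stk T L κ B m A X ≤ ∑ _j ∈ range m, (len T (fl A) κ : ℝ) :=
    sum_le_sum fun _ _ => Nat.cast_le.2 (cnt_le _ _ _)
  simpa using this

theorem stk_succ {B : ℝ} (m : ℕ) (A : Fin (N + 1) → ℝ) (X : ℝ) :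
    stk T L κ B (m + 1) A X = stk T L κ B m A X + ent T L κ A (X - (m + 1) * B) :=
  sum_range_succ _ _

theorem stk_succ' {B : ℝ} (m : ℕ) (A : Fin (N + 1) → ℝ) (X : ℝ) :
    stk T L κ B (m + 1) A (X + B) = stk T L κ B m A X + ent T L κ A X := by
  unfold stk
  rw [sum_range_succ']
  congr 1
  · refine sum_congr rfl fun j _ => ?_
    congr 1
    push_cast
    ring
  · congr 1
    push_cast
    ring

theorem ent_near (hη : 0 < η) (hL : Adm T η L) {A A' : Fin (N + 1) → ℝ}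
    (h : ∀ i : Fin N, |A i.succ - A' i.succ| < 1) {Y Y' : ℝ} (hY : Y ≤ Y' + 1) :
    ent T L κ A Y ≤ ent T L κ A' Y' + ((N + 1) / η + 1 + N) := by
  have h1 := cnt_near (T := T) (O := L)
    (fun c i hc => ⟨hL.hi c i hc, by linarith [hL.lo c i hc]⟩) (c := fl A) (c' := fl A') κ
    (fun i _ => fl_near (h i)) (X := Y) (Y := Y' + (N + 1)) (by linarith)
  have h2 := cnt_slope (H := len T (fl A') κ) (g := line L (fl A') κ) (Y := Y')
    (D := N + 1) hη (by positivity) fun s hs => by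
      rw [line_succ]
      exact hL.lo _ κ (succ_lt_len hs)
  have h3 : (cnt (len T (fl A) κ) (line L (fl A) κ) Y : ℝ) ≤
      cnt (len T (fl A') κ) (line L (fl A') κ) (Y' + (N + 1)) + N := by exact_mod_cast h1
  unfold ent
  linarith

theorem stk_near (hη : 0 < η) (hL : Adm T η L) {B : ℝ} {m : ℕ} {A A' : Fin (N + 1) → ℝ}
    (h : ∀ i : Fin N, |A i.succ - A' i.succ| < 1) {X X' : ℝ} (hX : X ≤ X' + 1) :
    stk T L κ B m A X ≤ stk T L κ B m A' X' + m * ((N + 1) / η + 1 + N) := by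
  have : stk T L κ B m A X ≤
      ∑ j ∈ range m, (ent T L κ A' (X' - (j + 1) * B) + ((N + 1) / η + 1 + N)) :=
    sum_le_sum fun _ _ => ent_near hη hL h (by linarith)
  rw [sum_add_distrib, sum_const, card_range, nsmul_eq_mul] at this
  exact this

/-- A smooth function that follows the height of the stack. -/
theorem exists_shift (hη : 0 < η) (hL : Adm T η L) (κ : Fin N) (B : ℝ) (m : ℕ) :
    ∃ q : (Fin (N + 1) → ℝ) → ℝ, ContDiff ℝ ∞ q ∧
      (∀ (A : Fin (N + 1) → ℝ) (j : ℤ), A 0 = j → fderiv ℝ q A (Pi.single 0 1) = 0) ∧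
      ∀ A, stk T L κ B m A (A 0) ≤ q A ∧
        q A ≤ stk T L κ B m A (A 0) + 2 * (m * ((N + 1) / η + 1 + N)) := by
  obtain ⟨g, hg, hg'⟩ := exists_smooth_sel (N := N) (t := fun q => {σ | ∀ X, |X - q 0| ≤ 1 / 2 →
      stk T L κ B m q X ≤ σ ∧ σ ≤ stk T L κ B m q X + 2 * (m * ((N + 1) / η + 1 + N))})
    (fun q => Set.OrdConnected.convex ⟨fun x hx y hy z hz X hX =>
      ⟨(hx X hX).1.trans hz.1, hz.2.trans (hy X hX).2⟩⟩) fun q₀ => by
    refine ⟨stk T L κ B m q₀ (q₀ 0) + m * ((N + 1) / η + 1 + N), fun q hq X hX => ⟨?_, ?_⟩⟩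
    · exact stk_near hη hL (fun i => by linarith [hq i.succ]) (by
        linarith [(abs_le.1 hX).2, (abs_lt.1 (hq 0)).2])
    · have := stk_near (κ := κ) (B := B) (m := m) hη hL (A := q₀) (A' := q) (X := q₀ 0) (X' := X)
        (fun i => by linarith [hq i.succ, abs_sub_comm (q i.succ) (q₀ i.succ)]) (by
        linarith [(abs_le.1 hX).1, (abs_lt.1 (hq 0)).1])
      linarith
  obtain ⟨s, h1, h2, h3⟩ := exists_flat hg
  refine ⟨s, h1, h2, fun A => ?_⟩
  obtain ⟨X, hX, e⟩ := h3 A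
  have := hg' (update A 0 X) (A 0) (by rwa [update_self])
  rw [stk_congr (A := update A 0 X) (A' := A)
    (fun i _ => update_of_ne (Fin.succ_ne_zero i) _ _)] at this
  rw [e]
  exact this

/-- A point well inside the fundamental domain lands in its own layer of the stack. -/
theorem layer (hL : Adm T 0 L) {B Z σ : ℝ} {m K : ℕ} {A : Fin (N + 1) → ℝ} (hZ : Z + 1 ≤ K)
    (hZ0 : 0 ≤ Z) (h0 : 0 ≤ A κ.succ) (h1 : tot (fl A) + K ≤ T) (h2 : L (fl A) + K ≤ A 0)
    (h3 : A 0 + K ≤ L (fl A) + (m + 1) * B) (h4 : stk T L κ B m A (A 0) ≤ σ)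
    (h5 : σ ≤ stk T L κ B m A (A 0) + Z) :
    stk T L κ B (m + 1) A (A 0) ≤ A κ.succ + σ ∧
      A κ.succ + σ < stk T L κ B (m + 1) A (A 0 + B) := by
  have hK : 1 ≤ K := by
    have : (1 : ℝ) ≤ K := by linarith
    exact_mod_cast this
  obtain ⟨K', rfl⟩ : ∃ K', K = K' + 1 := ⟨K - 1, by omega⟩
  have Lm : ∀ s, s + 1 < len T (fl A) κ → line L (fl A) κ s ≤ line L (fl A) κ (s + 1) :=
    fun s hs => by
      have := hL.lo _ κ (succ_lt_len hs)
      rw [line_succ, line]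
      linarith
  have Lu : ∀ s, s + 1 < len T (fl A) κ →
      -line L (fl A) κ s + (-1) ≤ -line L (fl A) κ (s + 1) := fun s hs => by
    have := hL.hi _ κ (succ_lt_len hs)
    rw [line_succ, line]
    linarith
  have e : line L (fl A) κ (fl A κ) = L (fl A) := by simp [line]
  have hm : fl A κ + K' < len T (fl A) κ := by
    rw [tot_eq (fl A) κ] at h1
    rw [len]
    omega
  have f1 : (fl A κ : ℝ) ≤ A κ.succ := Nat.floor_le h0
  have f2 : A κ.succ < (fl A κ : ℝ) + 1 := Nat.lt_floor_add_one _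
  push_cast at h2 h3 hZ
  rw [stk_succ, stk_succ']
  constructor
  · have a1 : ¬ fl A κ < cnt (len T (fl A) κ) (line L (fl A) κ) (A 0 - (m + 1) * B) := by
      rw [lt_cnt_iff Lm (by omega), e]
      have : (0 : ℝ) ≤ K' := Nat.cast_nonneg _
      linarith
    have a2 : ent T L κ A (A 0 - (m + 1) * B) ≤ fl A κ := Nat.cast_le.2 (not_lt.1 a1)
    linarith
  · have a1 : fl A κ + K' < cnt (len T (fl A) κ) (line L (fl A) κ) (A 0) := by
      rw [lt_cnt_iff Lm hm]
      have := slope_le (g := fun s => -line L (fl A) κ s) Lu (fl A κ) K' hm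
      rw [e] at this
      linarith
    have a2 : ((fl A κ + K' + 1 : ℕ) : ℝ) ≤ ent T L κ A (A 0) := Nat.cast_le.2 a1
    push_cast at a2
    linarith

end Pool.Agent.Lib.BallV
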